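import Mathlib
import Pool.Agent.Lib.Helper13.Frob.Orders
import Pool.Agent.Lib.H38.Ehr.Far

set_option autoImplicit false

/-!
# The affine majorant of the vanishing orders
-/

namespace Pool.Agent.Lib.Ehrhart

open MeasureTheory Set Filter Topology
open Pool.Agent.Lib.Helper13.Frob Pool.Agent.Lib.H38.Ehr
open scoped Pointwise

variable {n : ℕ}

/-- properties of the vanishing orders -/
structure Data (K : Set (Fin n → ℝ)) (w : Fin n → ℝ) (j : ℕ → (Fin n → ℤ) → ℕ) : Prop where
  a : ∀ m, 0 < m → ∀ J : ℕ, ((latPts K m).filter fun u => j m u < J).card ≤ (n + J - 1).choose n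
  b : ∀ {ι : Type} (t : Finset ι) (m : ι → ℕ) (u : ι → Fin n → ℤ) (k : ι → ℕ),
        (∀ i ∈ t, 0 < m i ∧ u i ∈ latPts K (m i)) → 0 < ∑ i ∈ t, k i → ∀ c : ℝ, 0 < c →
        (∀ y ∈ K, c • (y - (fun l => (∑ i ∈ t, (k i : ℝ) * u i l) /
          (∑ i ∈ t, (k i : ℝ) * m i))) ∈ interior K) →
        c * ∑ i ∈ t, (k i : ℝ) * j (m i) (u i) ≤ n * ∑ i ∈ t, (k i : ℝ) * m i
  c : ∀ m, 0 < m → ∀ u ∈ latPts K m, ∀ D : ℕ,
        (∀ v ∈ latPts K m, dot w (fun i => (v i : ℝ)) ≤ dot w (fun i => (u i : ℝ)) →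
          ∀ i, |v i - u i| ≤ (D : ℤ)) → j m u ≤ 2 * n * D

/-- the points `(u / m, j / m)` -/
def Gam (K : Set (Fin n → ℝ)) (j : ℕ → (Fin n → ℤ) → ℕ) : Set ((Fin n → ℝ) × ℝ) :=
  {q | ∃ m u, 0 < m ∧ u ∈ latPts K m ∧ q = ((fun i => (u i : ℝ) / m), (j m u : ℝ) / m)}

lemma hull_bound {K : Set (Fin n → ℝ)} {w : Fin n → ℝ} {j : ℕ → (Fin n → ℤ) → ℕ}
    (hK : IsCompact K) (H : Data K w j) {x : Fin n → ℝ} {s : ℝ}
    (hxs : (x, s) ∈ convexHull ℝ (Gam K j)) {c : ℝ} (hc : 0 < c)
    (hcx : ∀ y ∈ K, c • (y - x) ∈ interior K) : c * s ≤ n := by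
  rw [convexHull_eq] at hxs
  obtain ⟨ι, t, wt, z, hw0, hw1, hz, hcm⟩ := hxs
  choose! m u hm hu hzu using hz
  rw [Finset.centerMass_eq_of_sum_1 _ _ hw1] at hcm
  have hx : ∀ l, ∑ i ∈ t, wt i / m i * u i l = x l := by
    intro l
    have h1 := congrArg (fun q => q.1 l) hcm
    simp only [Prod.fst_sum, Finset.sum_apply, Prod.smul_fst, Pi.smul_apply, smul_eq_mul] at h1
    rw [← h1]
    refine Finset.sum_congr rfl fun i hi => ?_
    rw [hzu i hi]
    simp only
    ring
  have hs : ∑ i ∈ t, wt i / m i * j (m i) (u i) = s := by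
    have h1 := congrArg (fun q => q.2) hcm
    simp only [Prod.snd_sum, Prod.smul_snd, smul_eq_mul] at h1
    rw [← h1]
    refine Finset.sum_congr rfl fun i hi => ?_
    rw [hzu i hi]
    simp only
    ring
  have hmm : ∑ i ∈ t, wt i / m i * (m i : ℝ) = 1 := by
    rw [← hw1]
    refine Finset.sum_congr rfl fun i hi => ?_
    have : (m i : ℝ) ≠ 0 := by exact_mod_cast (hm i hi).ne'
    field_simp
  -- integer weights
  set k : ℕ → ι → ℕ := fun N i => ⌊(wt i / m i) * N⌋₊ with hk
  have hk1 : ∀ i ∈ t, Tendsto (fun N : ℕ => (k N i : ℝ) / N) atTop (𝓝 (wt i / m i)) := by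
    intro i hi
    have h0 : 0 ≤ wt i / m i := div_nonneg (hw0 i hi) (Nat.cast_nonneg _)
    exact (tendsto_nat_floor_mul_div_atTop h0).comp tendsto_natCast_atTop_atTop
  have hlin : ∀ g : ι → ℝ, Tendsto (fun N : ℕ => (∑ i ∈ t, (k N i : ℝ) * g i) / N) atTop
      (𝓝 (∑ i ∈ t, wt i / m i * g i)) := by
    intro g
    have h1 : (fun N : ℕ => (∑ i ∈ t, (k N i : ℝ) * g i) / N) =
        fun N : ℕ => ∑ i ∈ t, (k N i : ℝ) / N * g i := by
      funext N
      rw [Finset.sum_div]
      exact Finset.sum_congr rfl fun i _ => by ring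
    rw [h1]
    exact tendsto_finsetSum _ fun i hi => (hk1 i hi).mul_const _
  have hm1 := hlin (fun i => (m i : ℝ))
  rw [hmm] at hm1
  have hj1 := hlin (fun i => (j (m i) (u i) : ℝ))
  rw [hs] at hj1
  -- the points
  set X : ℕ → Fin n → ℝ := fun N l => (∑ i ∈ t, (k N i : ℝ) * u i l) / (∑ i ∈ t, (k N i : ℝ) * m i)
    with hX
  have hXlim : Tendsto X atTop (𝓝 x) := by
    rw [tendsto_pi_nhds]
    intro l
    have h1 := (hlin (fun i => (u i l : ℝ))).div hm1 one_ne_zero
    rw [hx l, div_one] at h1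
    refine h1.congr' ?_
    filter_upwards [eventually_gt_atTop 0] with N hN
    have : (N : ℝ) ≠ 0 := by positivity
    simp only [hX, Pi.div_apply]
    rw [div_div_div_cancel_right₀ this]
  have hadm : ∀ᶠ N in atTop, ∀ y ∈ K, c • (y - X N) ∈ interior K := by
    have hcomp : IsCompact ((fun y => c • (y - x)) '' K) := hK.image (by fun_prop)
    obtain ⟨δ, hδ, hsub⟩ := hcomp.exists_thickening_subset_open isOpen_interior (by
      rintro _ ⟨y, hy, rfl⟩; exact hcx y hy)
    have h2 : ∀ᶠ N in atTop, dist (X N) x < δ / c :=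
      (Metric.tendsto_nhds.1 hXlim) _ (by positivity)
    filter_upwards [h2] with N hN y hy
    apply hsub
    rw [Metric.mem_thickening_iff]
    refine ⟨c • (y - x), ⟨y, hy, rfl⟩, ?_⟩
    rw [dist_eq_norm, ← smul_sub, norm_smul, Real.norm_eq_abs, abs_of_pos hc]
    have : y - X N - (y - x) = x - X N := by abel
    rw [this, ← dist_eq_norm, dist_comm]
    calc c * dist (X N) x < c * (δ / c) := by gcongr
      _ = δ := by field_simp
  have hpos : ∀ᶠ N in atTop, 0 < (∑ i ∈ t, (k N i : ℝ) * m i) / (N : ℝ) :=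
    hm1.eventually (lt_mem_nhds one_pos)
  have hineq : ∀ᶠ N : ℕ in atTop, c * ((∑ i ∈ t, (k N i : ℝ) * j (m i) (u i)) / N) ≤
      n * ((∑ i ∈ t, (k N i : ℝ) * m i) / N) := by
    filter_upwards [hadm, hpos, eventually_gt_atTop 0] with N h1 h2 h3
    have hN : (0 : ℝ) < N := by exact_mod_cast h3
    have h4 : 0 < ∑ i ∈ t, (k N i : ℝ) * m i := by
      by_contra hcon
      push Not at hcon
      have := div_nonpos_of_nonpos_of_nonneg hcon hN.le
      linarith
    have h5 : 0 < ∑ i ∈ t, k N i := by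
      by_contra hcon
      have h6 : ∑ i ∈ t, k N i = 0 := by omega
      rw [Finset.sum_eq_zero_iff] at h6
      have h7 : ∑ i ∈ t, (k N i : ℝ) * m i = 0 :=
        Finset.sum_eq_zero fun i hi => by rw [h6 i hi]; simp
      linarith
    have h8 := H.b t m u (k N) (fun i hi => ⟨hm i hi, hu i hi⟩) h5 c hc h1
    calc c * ((∑ i ∈ t, (k N i : ℝ) * j (m i) (u i)) / N)
        = (c * ∑ i ∈ t, (k N i : ℝ) * j (m i) (u i)) / N := by ring
      _ ≤ (n * ∑ i ∈ t, (k N i : ℝ) * m i) / N := by gcongr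
      _ = _ := by ring
  have hfin := le_of_tendsto_of_tendsto (hj1.const_mul c) (hm1.const_mul (n : ℝ)) hineq
  linarith

/-- lattice points are dense -/
lemma exists_latPts_near {K : Set (Fin n → ℝ)} (hK : IsCompact K) {x : Fin n → ℝ}
    (hx : x ∈ interior K) {ε : ℝ} (hε : 0 < ε) :
    ∃ m u, 0 < m ∧ u ∈ latPts K m ∧ dist (fun i => (u i : ℝ) / m : Fin n → ℝ) x < ε := by
  obtain ⟨δ, hδ, hball⟩ := Metric.isOpen_iff.1 isOpen_interior x hx
  obtain ⟨m, hm⟩ := exists_nat_gt (1 / min δ ε)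
  have hmin : 0 < min δ ε := lt_min hδ hε
  have hm0 : (0 : ℝ) < m := lt_trans (by positivity) hm
  have hm0' : 0 < m := by exact_mod_cast hm0
  have h1 : 1 / (m : ℝ) < min δ ε := by
    rw [div_lt_iff₀ hm0]
    rw [div_lt_iff₀ hmin] at hm
    linarith
  set u : Fin n → ℤ := fun i => ⌊(m : ℝ) * x i⌋ with hu
  have hdist : dist (fun i => (u i : ℝ) / m : Fin n → ℝ) x < min δ ε := by
    rw [dist_pi_lt_iff hmin]
    intro i
    refine lt_of_le_of_lt ?_ h1
    rw [Real.dist_eq, abs_le]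
    have h2 := Int.floor_le ((m : ℝ) * x i)
    have h3 := Int.lt_floor_add_one ((m : ℝ) * x i)
    have h4 : (u i : ℝ) / m - x i = ((u i : ℝ) - m * x i) / m := by field_simp
    rw [h4]
    constructor
    · rw [neg_le, ← neg_div]
      gcongr
      linarith
    · gcongr
      linarith
  refine ⟨m, u, hm0', ?_, lt_of_lt_of_le hdist (min_le_right _ _)⟩
  rw [mem_latPts hK.isBounded, Set.mem_smul_set]
  refine ⟨fun i => (u i : ℝ) / m, interior_subset (hball (lt_of_lt_of_le hdist (min_le_left _ _))), ?_⟩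
  funext i
  simp only [Pi.smul_apply, smul_eq_mul]
  field_simp

lemma div_mem_of_mem_latPts {K : Set (Fin n → ℝ)} (hK : IsCompact K) {m : ℕ} (hm : 0 < m)
    {u : Fin n → ℤ} (hu : u ∈ latPts K m) : (fun i => (u i : ℝ) / m : Fin n → ℝ) ∈ K := by
  rw [mem_latPts hK.isBounded, Set.mem_smul_set] at hu
  obtain ⟨y, hy, hyu⟩ := hu
  have hm' : (m : ℝ) ≠ 0 := by exact_mod_cast hm.ne'
  have : (fun i => (u i : ℝ) / m : Fin n → ℝ) = y := by
    funext i
    have := congrFun hyu i
    simp only [Pi.smul_apply, smul_eq_mul] at this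
    rw [← this]
    field_simp
  rwa [this]

/-- Hahn-Banach: an affine majorant of `j`. -/
theorem exists_majorant {K : Set (Fin n → ℝ)} (hK : IsCompact K) (hconv : Convex ℝ K)
    (h0 : (0 : Fin n → ℝ) ∈ interior K)
    {j : ℕ → (Fin n → ℤ) → ℕ} {x0 : Fin n → ℝ} (hx0 : x0 ∈ interior K) {s0 : ℝ}
    (hs0 : ∀ s, (x0, s) ∈ convexHull ℝ (Gam K j) → s ≤ s0) :
    ∃ L : (Fin n → ℝ) →ᵃ[ℝ] ℝ, L x0 = s0 ∧ (∀ x ∈ K, 0 ≤ L x) ∧
      ∀ m u, 0 < m → u ∈ latPts K m → (j m u : ℝ) ≤ m * L (fun i => (u i : ℝ) / m) := by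
  classical
  set C := convexHull ℝ (Gam K j) with hC
  have hCconv : Convex ℝ C := convex_convexHull ℝ _
  have hGC : Gam K j ⊆ C := subset_convexHull ℝ _
  set P : Set ((Fin n → ℝ) × ℝ) := {q | ∃ s, (q.1, s) ∈ C ∧ q.2 < s} with hP
  have hPconv : Convex ℝ P := by
    rintro ⟨x, r⟩ ⟨s, hs, hrs⟩ ⟨y, r'⟩ ⟨s', hs', hrs'⟩ a b ha hb hab
    refine ⟨a * s + b * s', ?_, ?_⟩
    · exact hCconv hs hs' ha hb hab
    · simp only [Prod.smul_mk, Prod.mk_add_mk, smul_eq_mul]
      rcases ha.eq_or_lt with h | h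
      · have hb1 : b = 1 := by linarith
        subst h; subst hb1; simpa using hrs'
      · have h1 : a * r < a * s := by simp only at hrs; gcongr
        have h2 : b * r' ≤ b * s' := by simp only at hrs'; gcongr
        linarith
  -- nonnegativity
  have hCnn : ∀ x s, (x, s) ∈ C → 0 ≤ s := by
    have hsub : C ⊆ {q : (Fin n → ℝ) × ℝ | 0 ≤ q.2} := by
      refine convexHull_min ?_ ?_
      · rintro _ ⟨m, u, hm, hu, rfl⟩
        simp only [mem_ofPred_eq]
        positivity
      · exact convex_halfSpace_ge (IsLinearMap.mk (by simp) (by simp)) 0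
    intro x s h
    exact hsub h
  -- `P` contains a neighbourhood of `(0, -1)`
  have hint : (interior P).Nonempty := by
    obtain ⟨δ, hδ, hball⟩ := Metric.isOpen_iff.1 isOpen_interior 0 h0
    obtain ⟨m, hm⟩ := exists_nat_gt (1 / δ)
    have hm0 : (0 : ℝ) < m := lt_trans (by positivity) hm
    have hm0' : 0 < m := by exact_mod_cast hm0
    have h1 : 1 / (m : ℝ) < δ := by
      rw [div_lt_iff₀ hm0]; rw [div_lt_iff₀ hδ] at hm; linarith
    -- the sign vectors
    have hsign : ∀ v : Fin n → ℤ, (∀ i, |v i| ≤ 1) → v ∈ latPts K m := by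
      intro v hv
      rw [mem_latPts hK.isBounded, Set.mem_smul_set]
      refine ⟨fun i => (v i : ℝ) / m, interior_subset (hball ?_), ?_⟩
      · rw [Metric.mem_ball, dist_pi_lt_iff hδ]
        intro i
        rw [Pi.zero_apply, dist_zero_right, Real.norm_eq_abs, abs_div, abs_of_pos hm0]
        refine lt_of_le_of_lt ?_ h1
        gcongr
        exact_mod_cast hv i
      · funext i
        simp only [Pi.smul_apply, smul_eq_mul]
        field_simp
    -- the cube is in the projection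
    have hcube : ∀ x : Fin n → ℝ, (∀ i, |x i| ≤ 1 / m) → ∃ s, (x, s) ∈ C := by
      have hproj : Convex ℝ (Prod.fst '' C : Set (Fin n → ℝ)) :=
        hCconv.linear_image (LinearMap.fst ℝ (Fin n → ℝ) ℝ)
      have hsub : Set.pi univ (fun _ : Fin n => convexHull ℝ {-(1 / (m : ℝ)), 1 / (m : ℝ)}) ⊆
          Prod.fst '' C := by
        rw [← convexHull_pi]
        refine convexHull_min ?_ hproj
        intro x hx
        have hx' : ∀ i, x i = -(1 / (m : ℝ)) ∨ x i = 1 / (m : ℝ) := fun i => by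
          simpa using hx i (mem_univ i)
        set v : Fin n → ℤ := fun i => if x i = 1 / (m : ℝ) then 1 else -1 with hv
        have hvx : x = fun i => (v i : ℝ) / m := by
          funext i
          simp only [hv]
          by_cases h : x i = 1 / (m : ℝ)
          · rw [if_pos h, h]; simp
          · rw [if_neg h, (hx' i).resolve_right h]; push_cast; ring
        refine ⟨(x, (j m v : ℝ) / m), hGC ⟨m, v, hm0', hsign v ?_, by rw [← hvx]⟩, rfl⟩
        intro i
        simp only [hv]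
        split_ifs <;> simp
      intro x hx
      have hx2 : x ∈ Set.pi univ (fun _ : Fin n => convexHull ℝ {-(1 / (m : ℝ)), 1 / (m : ℝ)}) := by
        intro i _
        rw [convexHull_pair, segment_eq_Icc (by
          have : (0 : ℝ) ≤ 1 / m := by positivity
          linarith)]
        exact abs_le.1 (hx i)
      obtain ⟨q, hq, rfl⟩ := hsub hx2
      exact ⟨q.2, hq⟩
    refine ⟨(0, -1), ?_⟩
    rw [mem_interior]
    refine ⟨(Metric.ball 0 (1 / m)) ×ˢ (Iio 0), ?_, Metric.isOpen_ball.prod isOpen_Iio,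
      ⟨Metric.mem_ball_self (by positivity), by simp⟩⟩
    rintro ⟨x, r⟩ ⟨hx, hr⟩
    have hx' : ∀ i, |x i| ≤ 1 / m := by
      intro i
      rw [Metric.mem_ball, dist_pi_lt_iff (by positivity)] at hx
      have := (hx i).le
      simpa using this
    obtain ⟨s, hs⟩ := hcube x hx'
    exact ⟨s, hs, lt_of_lt_of_le hr (hCnn x s hs)⟩
  -- separation
  have hnot : (x0, s0) ∉ interior P := by
    intro h
    obtain ⟨s, hs, hlt⟩ := interior_subset h
    exact absurd (hs0 s hs) (not_le.2 hlt)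
  obtain ⟨f, hf⟩ := geometric_hahn_banach_open_point hPconv.interior isOpen_interior hnot
  have hfle : ∀ q ∈ P, f q ≤ f (x0, s0) := by
    intro q hq
    have hcl : q ∈ closure (interior P) := by
      rw [hPconv.closure_interior_eq_closure_of_nonempty_interior hint]
      exact subset_closure hq
    exact closure_minimal (fun y hy => (hf y hy).le)
      (isClosed_le f.continuous continuous_const) hcl
  set ℓ : (Fin n → ℝ) → ℝ := fun x => f (x, 0) with hℓ
  set α : ℝ := f (0, 1) with hα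
  have hfq : ∀ x r, f (x, r) = ℓ x + r * α := by
    intro x r
    have : ((x, r) : (Fin n → ℝ) × ℝ) = (x, 0) + r • ((0 : Fin n → ℝ), (1 : ℝ)) := by
      ext <;> simp
    rw [this, map_add, map_smul]; rfl
  -- a point of `C` over the lattice points
  have hCpt : ∀ m u, 0 < m → u ∈ latPts K m → ∀ r : ℝ, r < (j m u : ℝ) / m →
      ℓ (fun i => (u i : ℝ) / m) + r * α ≤ ℓ x0 + s0 * α := by
    intro m u hm hu r hr
    rw [← hfq, ← hfq]
    exact hfle _ ⟨_, hGC ⟨m, u, hm, hu, rfl⟩, hr⟩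
  have hαnn : 0 ≤ α := by
    obtain ⟨m, u, hm, hu, -⟩ := exists_latPts_near hK h0 one_pos
    by_contra hcon
    push Not at hcon
    set D := ℓ x0 + s0 * α - ℓ (fun i => (u i : ℝ) / m) with hD
    have h1 := hCpt m u hm hu (min (-1) ((|D| + 1) / α)) (lt_of_le_of_lt (min_le_left _ _) (by
      have : (0 : ℝ) ≤ (j m u : ℝ) / m := by positivity
      linarith))
    have h2 : |D| + 1 ≤ min (-1) ((|D| + 1) / α) * α := by
      have h3 : min (-1) ((|D| + 1) / α) ≤ (|D| + 1) / α := min_le_right _ _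
      calc |D| + 1 = (|D| + 1) / α * α := (div_mul_cancel₀ _ hcon.ne).symm
        _ ≤ _ := mul_le_mul_of_nonpos_right h3 hcon.le
    have h4 := le_abs_self D
    linarith
  have hℓcont : Continuous ℓ := f.continuous.comp (by fun_prop)
  have hαpos : 0 < α := by
    rcases hαnn.eq_or_lt with h | h
    · exfalso
      -- then ℓ x ≤ ℓ x0 on the interior of K
      have h1 : ∀ x ∈ interior K, ℓ x ≤ ℓ x0 := by
        intro x hx
        by_contra hcon
        push Not at hcon
        obtain ⟨ε, hε, hball⟩ := Metric.isOpen_iff.1 (isOpen_lt continuous_const hℓcont) x hcon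
        obtain ⟨m, u, hm, hu, hd⟩ := exists_latPts_near hK hx hε
        have h2 : ℓ x0 < ℓ (fun i => (u i : ℝ) / m) := hball hd
        have h3 := hCpt m u hm hu (-1) (by
          have : (0 : ℝ) ≤ (j m u : ℝ) / m := by positivity
          linarith)
        rw [← h] at h3
        linarith
      -- so ℓ = 0
      have hlin : ∀ x y, ℓ (x + y) = ℓ x + ℓ y := by
        intro x y
        have : ((x + y, 0) : (Fin n → ℝ) × ℝ) = (x, 0) + (y, 0) := by ext <;> simp
        simp only [hℓ]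
        rw [this, map_add]
      have hsm : ∀ (c : ℝ) x, ℓ (c • x) = c * ℓ x := by
        intro c x
        have : ((c • x, 0) : (Fin n → ℝ) × ℝ) = c • (x, 0) := by ext <;> simp
        simp only [hℓ]
        rw [this, map_smul]; rfl
      have h2 : ∀ v, ℓ v = 0 := by
        have h3 : ∀ v, ℓ v ≤ 0 := by
          intro v
          have h4 : ∀ᶠ t : ℝ in 𝓝[>] 0, x0 + t • v ∈ interior K := by
            have hc : Tendsto (fun t : ℝ => x0 + t • v) (𝓝[>] 0) (𝓝 x0) := by
              have : ContinuousAt (fun t : ℝ => x0 + t • v) 0 := by fun_prop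
              have h5 := this.tendsto
              simp only [zero_smul, add_zero] at h5
              exact h5.mono_left nhdsWithin_le_nhds
            exact hc (isOpen_interior.mem_nhds hx0)
          obtain ⟨t, ht1, ht2⟩ := (h4.and self_mem_nhdsWithin).exists
          have ht2 : 0 < t := ht2
          have h5 := h1 _ ht1
          rw [hlin, hsm] at h5
          by_contra hcon
          push Not at hcon
          have : 0 < t * ℓ v := by positivity
          linarith
        intro v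
        have h4 := h3 v
        have h5 := h3 (-v)
        have h6 := hsm (-1) v
        rw [neg_one_smul] at h6
        linarith
      obtain ⟨q, hq⟩ := hint
      have h7 := hf q hq
      have h8 := hfq q.1 q.2
      rw [Prod.mk.eta] at h8
      rw [h8, hfq, h2, h2, ← h] at h7
      simp at h7
    · exact h
  -- the affine map
  set fl : (Fin n → ℝ) →ₗ[ℝ] ℝ :=
    (f : ((Fin n → ℝ) × ℝ) →ₗ[ℝ] ℝ).comp (LinearMap.inl ℝ (Fin n → ℝ) ℝ) with hfl
  have hflℓ : ∀ x, fl x = ℓ x := fun x => rfl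
  set L : (Fin n → ℝ) →ᵃ[ℝ] ℝ :=
    (-(1 / α) • fl).toAffineMap + AffineMap.const ℝ (Fin n → ℝ) (s0 + ℓ x0 / α) with hL
  have hLx : ∀ x, L x = s0 + (ℓ x0 - ℓ x) / α := by
    intro x
    simp only [hL, AffineMap.coe_add, Pi.add_apply, LinearMap.coe_toAffineMap,
      AffineMap.const_apply, LinearMap.smul_apply, smul_eq_mul, hflℓ]
    ring
  have hmaj : ∀ m u, 0 < m → u ∈ latPts K m → (j m u : ℝ) ≤ m * L (fun i => (u i : ℝ) / m) := by
    intro m u hm hu
    have hm' : (0 : ℝ) < m := by exact_mod_cast hm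
    have h1 : (j m u : ℝ) / m ≤ L (fun i => (u i : ℝ) / m) := by
      refine le_of_forall_lt fun r hr => ?_
      obtain ⟨r', hr1, hr2⟩ := exists_between hr
      have h2 := hCpt m u hm hu r' hr2
      refine lt_of_lt_of_le hr1 ?_
      rw [hLx]
      have h3 : (r' - s0) * α ≤ ℓ x0 - ℓ (fun i => (u i : ℝ) / m) := by linarith
      have h4 : r' - s0 ≤ (ℓ x0 - ℓ (fun i => (u i : ℝ) / m)) / α := by
        rwa [le_div_iff₀ hαpos]
      linarith
    rw [div_le_iff₀ hm'] at h1
    linarith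
  refine ⟨L, by rw [hLx]; simp, ?_, hmaj⟩
  -- nonnegativity
  have hLcont : Continuous L := by
    have : (L : (Fin n → ℝ) → ℝ) = fun x => s0 + (ℓ x0 - ℓ x) / α := funext hLx
    rw [this]; fun_prop
  have hint' : ∀ x ∈ interior K, 0 ≤ L x := by
    intro x hx
    by_contra hcon
    push Not at hcon
    obtain ⟨ε, hε, hball⟩ := Metric.isOpen_iff.1 (isOpen_lt hLcont continuous_const) x hcon
    obtain ⟨m, u, hm, hu, hd⟩ := exists_latPts_near hK hx hε
    have h2 : L (fun i => (u i : ℝ) / m) < 0 := hball hd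
    have h3 := hmaj m u hm hu
    have h4 : (0 : ℝ) ≤ j m u := Nat.cast_nonneg _
    have h5 : (0 : ℝ) < m := by exact_mod_cast hm
    nlinarith
  intro x hx
  have hcl : x ∈ closure (interior K) := by
    rw [hconv.closure_interior_eq_closure_of_nonempty_interior ⟨0, h0⟩]
    exact subset_closure hx
  exact closure_minimal hint' (isClosed_le continuous_const hLcont) hcl

end Pool.Agent.Lib.Ehrhart
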