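import Mathlib
import Pool.Agent.Lib.Ehrhart.Hull

set_option autoImplicit false

/-!
# Asymptotics of the sums of vanishing orders
-/

namespace Pool.Agent.Lib.Ehrhart

open MeasureTheory Set Filter Topology
open Pool.Agent.Lib.Helper13.Frob Pool.Agent.Lib.H38.Ehr
open scoped Pointwise

variable {n : ℕ}

lemma hockey (n J0 : ℕ) : ∑ J ∈ Finset.Icc 1 J0, (n + J - 1).choose n = (n + J0).choose (n + 1) := by
  induction J0 with
  | zero => simp
  | succ J0 ih =>
    rw [Finset.sum_Icc_succ_top (by omega), ih]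
    have e1 : n + (J0 + 1) - 1 = n + J0 := by omega
    have e2 : n + (J0 + 1) = (n + J0) + 1 := by omega
    rw [e1, e2, Nat.choose_succ_succ, add_comm]

lemma min_add_card (j J0 : ℕ) :
    min j J0 + ((Finset.Icc 1 J0).filter fun J => j < J).card = J0 := by
  have : ((Finset.Icc 1 J0).filter fun J => j < J) = Finset.Icc (j + 1) J0 := by
    ext J; simp only [Finset.mem_filter, Finset.mem_Icc]; omega
  rw [this, Nat.card_Icc]
  omega

lemma trunc_sum_lower {K : Set (Fin n → ℝ)} {w : Fin n → ℝ} {j : ℕ → (Fin n → ℤ) → ℕ}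
    (H : Data K w j) {m : ℕ} (hm : 0 < m) (J0 : ℕ) :
    (J0 : ℝ) * (latPts K m).card - ((n + J0).choose (n + 1) : ℕ) ≤
      ∑ u ∈ latPts K m, (min (j m u) J0 : ℕ) := by
  have h1 : J0 * (latPts K m).card = ∑ u ∈ latPts K m, min (j m u) J0 +
      ∑ J ∈ Finset.Icc 1 J0, ((latPts K m).filter fun u => j m u < J).card := by
    have h2 : ∑ J ∈ Finset.Icc 1 J0, ((latPts K m).filter fun u => j m u < J).card =
        ∑ u ∈ latPts K m, ((Finset.Icc 1 J0).filter fun J => j m u < J).card := by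
      simp only [Finset.card_filter]
      rw [Finset.sum_comm]
    rw [h2, ← Finset.sum_add_distrib, Finset.sum_congr rfl fun u _ => min_add_card (j m u) J0,
      Finset.sum_const, smul_eq_mul, mul_comm]
  have h3 : ∑ J ∈ Finset.Icc 1 J0, ((latPts K m).filter fun u => j m u < J).card ≤
      (n + J0).choose (n + 1) := by
    rw [← hockey]
    exact Finset.sum_le_sum fun J _ => H.a m hm J
  have h4 : J0 * (latPts K m).card ≤ ∑ u ∈ latPts K m, min (j m u) J0 +
      (n + J0).choose (n + 1) := by omega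
  have h5 : ((J0 * (latPts K m).card : ℕ) : ℝ) ≤
      ((∑ u ∈ latPts K m, min (j m u) J0 + (n + J0).choose (n + 1) : ℕ) : ℝ) := by exact_mod_cast h4
  push_cast at h5 ⊢
  linarith

lemma latPts_subset {K D : Set (Fin n → ℝ)} (hK : IsCompact K) (hD : IsCompact D) (hDK : D ⊆ K)
    (m : ℕ) : latPts D m ⊆ latPts K m := by
  intro u hu
  rw [mem_latPts hD.isBounded] at hu
  rw [mem_latPts hK.isBounded]
  exact Set.smul_set_mono hDK hu

lemma key_ineq {K D : Set (Fin n → ℝ)} (hK : IsCompact K) (hD : IsCompact D) (hDK : D ⊆ K)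
    {w : Fin n → ℝ} {j : ℕ → (Fin n → ℤ) → ℕ} (H : Data K w j) {L : (Fin n → ℝ) →ᵃ[ℝ] ℝ}
    (hL : ∀ m u, 0 < m → u ∈ latPts K m → (j m u : ℝ) ≤ m * L (fun i => (u i : ℝ) / m))
    {T β γ : ℝ} (hT : 0 ≤ T) {m : ℕ} (hm : 0 < m)
    (hDj : ∑ u ∈ latPts D m, (j m u : ℝ) ≤ (β * m + γ) * (latPts D m).card) :
    (T - 1 / m) * ((latPts K m).card / (m : ℝ) ^ n) - (T + n / m) ^ (n + 1) / (n + 1).factorial ≤
      (∑ u ∈ latPts K m, min (L (fun i => (u i : ℝ) / m)) T) / (m : ℝ) ^ n -
      (∑ u ∈ latPts D m, min (L (fun i => (u i : ℝ) / m)) T) / (m : ℝ) ^ n +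
      (β + γ / m) * ((latPts D m).card / (m : ℝ) ^ n) := by
  classical
  have hm' : (0 : ℝ) < m := by exact_mod_cast hm
  set G : (Fin n → ℤ) → ℝ := fun u => min (L (fun i => (u i : ℝ) / m)) T with hG
  set J0 := ⌊T * m⌋₊ with hJ0
  have hJle : (J0 : ℝ) ≤ T * m := Nat.floor_le (by positivity)
  have hJge : T * m - 1 ≤ J0 := by
    have := Nat.lt_floor_add_one (T * m)
    linarith
  have hsub := latPts_subset hK hD hDK m
  have h1 := trunc_sum_lower H hm J0
  have h2 : ((∑ u ∈ latPts K m, min (j m u) J0 : ℕ) : ℝ) ≤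
      m * (∑ u ∈ latPts K m, G u - ∑ u ∈ latPts D m, G u) + ∑ u ∈ latPts D m, (j m u : ℝ) := by
    have h3 : ∑ u ∈ latPts K m, G u - ∑ u ∈ latPts D m, G u = ∑ u ∈ latPts K m \ latPts D m, G u := by
      rw [← Finset.sum_sdiff hsub]; ring
    rw [h3, Finset.mul_sum, ← Finset.sum_sdiff hsub]
    push_cast
    refine add_le_add (Finset.sum_le_sum fun u hu => ?_) (Finset.sum_le_sum fun u _ => ?_)
    · have hu' := (Finset.mem_sdiff.1 hu).1
      simp only [hG]
      rw [mul_min_of_nonneg _ _ hm'.le]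
      refine min_le_min (hL m u hm hu') ?_
      linarith
    · exact min_le_left _ _
  have h3 : (((n + J0).choose (n + 1) : ℕ) : ℝ) ≤ (n + T * m) ^ (n + 1) / (n + 1).factorial := by
    refine (Nat.choose_le_pow_div (α := ℝ) _ _).trans ?_
    push_cast
    gcongr
  have h4 : (T * m - 1) * (latPts K m).card ≤ (J0 : ℝ) * (latPts K m).card := by gcongr
  have h5 : (T * m - 1) * (latPts K m).card - (n + T * m) ^ (n + 1) / (n + 1).factorial ≤
      m * (∑ u ∈ latPts K m, G u - ∑ u ∈ latPts D m, G u) + (β * m + γ) * (latPts D m).card := by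
    have h1' := h1
    push_cast at h1' h2
    linarith
  have hpow : (0 : ℝ) < (m : ℝ) ^ (n + 1) := by positivity
  have h6 := div_le_div_of_nonneg_right h5 hpow.le
  have e1 : ((T * m - 1) * (latPts K m).card - (n + T * m) ^ (n + 1) / (n + 1).factorial) /
      (m : ℝ) ^ (n + 1) = (T - 1 / m) * ((latPts K m).card / (m : ℝ) ^ n) -
        (T + n / m) ^ (n + 1) / (n + 1).factorial := by
    have e2 : (T + n / m : ℝ) = (n + T * m) / m := by field_simp; ring
    rw [e2, div_pow]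
    field_simp
    ring
  have e3 : (m * (∑ u ∈ latPts K m, G u - ∑ u ∈ latPts D m, G u) +
      (β * m + γ) * (latPts D m).card) / (m : ℝ) ^ (n + 1) =
      (∑ u ∈ latPts K m, G u) / (m : ℝ) ^ n - (∑ u ∈ latPts D m, G u) / (m : ℝ) ^ n +
      (β + γ / m) * ((latPts D m).card / (m : ℝ) ^ n) := by
    field_simp
    ring
  rw [e1, e3] at h6
  exact h6

lemma tendsto_card_latPts {K : Set (Fin n → ℝ)} (hK : IsCompact K) (hc : Convex ℝ K) :
    Tendsto (fun m : ℕ => ((latPts K m).card : ℝ) / (m : ℝ) ^ n) atTop (𝓝 (volume.real K)) := by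
  have h := tendsto_sum_latPts hK hc (G := fun _ => 1) continuous_const
  simpa using h

/-- The basic integral inequality. -/
theorem integral_ineq {K D : Set (Fin n → ℝ)} (hK : IsCompact K) (hKc : Convex ℝ K)
    (hD : IsCompact D) (hDc : Convex ℝ D) (hDK : D ⊆ K)
    {w : Fin n → ℝ} {j : ℕ → (Fin n → ℤ) → ℕ} (H : Data K w j) {L : (Fin n → ℝ) →ᵃ[ℝ] ℝ}
    (hLc : Continuous L)
    (hL : ∀ m u, 0 < m → u ∈ latPts K m → (j m u : ℝ) ≤ m * L (fun i => (u i : ℝ) / m))
    {T β γ : ℝ} (hT : 0 ≤ T)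
    (hDj : ∀ᶠ m in atTop, ∑ u ∈ latPts D m, (j m u : ℝ) ≤ (β * m + γ) * (latPts D m).card) :
    T * volume.real K - T ^ (n + 1) / (n + 1).factorial ≤
      (∫ x in K, min (L x) T) - (∫ x in D, min (L x) T) + β * volume.real D := by
  have hGc : Continuous fun x : Fin n → ℝ => min (L x) T := hLc.min continuous_const
  have t1 := tendsto_card_latPts hK hKc
  have t2 := tendsto_card_latPts hD hDc
  have t3 := tendsto_sum_latPts hK hKc hGc
  have t4 := tendsto_sum_latPts hD hDc hGc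
  have hinv : ∀ c : ℝ, Tendsto (fun m : ℕ => c / (m : ℝ)) atTop (𝓝 0) := fun c =>
    tendsto_const_div_atTop_nhds_zero_nat c
  have l1 : Tendsto (fun m : ℕ => (T - 1 / (m : ℝ)) * ((latPts K m).card / (m : ℝ) ^ n) -
      (T + n / m) ^ (n + 1) / (n + 1).factorial) atTop
      (𝓝 ((T - 0) * volume.real K - (T + 0) ^ (n + 1) / (n + 1).factorial)) :=
    ((tendsto_const_nhds.sub (hinv 1)).mul t1).sub
      (((tendsto_const_nhds.add (hinv n)).pow (n + 1)).div_const _)
  have l2 := (t3.sub t4).add ((tendsto_const_nhds (x := β)).add (hinv γ) |>.mul t2)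
  rw [sub_zero, add_zero] at l1
  rw [add_zero] at l2
  refine le_of_tendsto_of_tendsto l1 l2 ?_
  filter_upwards [hDj, eventually_gt_atTop 0] with m h1 h2
  exact key_ineq hK hD hDK H hL hT h2 h1

/-- Sublevel sets of the majorant are small. -/
theorem sublevel_le {K : Set (Fin n → ℝ)} (hK : IsCompact K) (hKc : Convex ℝ K)
    {w : Fin n → ℝ} {j : ℕ → (Fin n → ℤ) → ℕ} (H : Data K w j) {L : (Fin n → ℝ) →ᵃ[ℝ] ℝ}
    (hLc : Continuous L)
    (hL : ∀ m u, 0 < m → u ∈ latPts K m → (j m u : ℝ) ≤ m * L (fun i => (u i : ℝ) / m))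
    {t : ℝ} (ht : 0 ≤ t) :
    volume.real {x | x ∈ K ∧ L x ≤ t} ≤ t ^ n / n.factorial := by
  set D : Set (Fin n → ℝ) := {x | x ∈ K ∧ L x ≤ t} with hD
  have hDeq : D = K ∩ {x | L x ≤ t} := rfl
  have hDcomp : IsCompact D := by
    rw [hDeq]; exact hK.inter_right (isClosed_le hLc continuous_const)
  have hDconv : Convex ℝ D := by
    rw [hDeq]
    refine hKc.inter ?_
    intro x hx y hy a b ha hb hab
    simp only [mem_ofPred_eq] at hx hy ⊢
    rw [Convex.combo_affine_apply hab, smul_eq_mul, smul_eq_mul]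
    calc a * L x + b * L y ≤ a * t + b * t := by gcongr
      _ = t := by rw [← add_mul, hab, one_mul]
  have t1 := tendsto_card_latPts hDcomp hDconv
  have l1 : Tendsto (fun m : ℕ => (t + n / (m : ℝ)) ^ n / n.factorial) atTop
      (𝓝 ((t + 0) ^ n / n.factorial)) :=
    ((tendsto_const_nhds.add (tendsto_const_div_atTop_nhds_zero_nat (n : ℝ))).pow n).div_const _
  rw [add_zero] at l1
  refine le_of_tendsto_of_tendsto t1 l1 ?_
  filter_upwards [eventually_gt_atTop 0] with m hm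
  have hm' : (0 : ℝ) < m := by exact_mod_cast hm
  have hsub : latPts D m ⊆ (latPts K m).filter fun u => j m u < ⌊t * m⌋₊ + 1 := by
    intro u hu
    have h1 := latPts_subset hK hDcomp (fun x hx => hx.1) m hu
    refine Finset.mem_filter.2 ⟨h1, ?_⟩
    have h2 := div_mem_of_mem_latPts hDcomp hm hu
    have h3 := hL m u hm h1
    have h4 : (j m u : ℝ) ≤ t * m := by
      have h5 : L (fun i => (u i : ℝ) / m) ≤ t := h2.2
      nlinarith
    have := Nat.le_floor h4
    omega
  have hcard := (Finset.card_le_card hsub).trans (H.a m hm (⌊t * m⌋₊ + 1))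
  have e : n + (⌊t * m⌋₊ + 1) - 1 = n + ⌊t * m⌋₊ := by omega
  rw [e] at hcard
  have h6 : ((latPts D m).card : ℝ) ≤ (n + t * m) ^ n / n.factorial := by
    calc ((latPts D m).card : ℝ) ≤ ((n + ⌊t * m⌋₊).choose n : ℕ) := by exact_mod_cast hcard
      _ ≤ ((n + ⌊t * m⌋₊ : ℕ) : ℝ) ^ n / n.factorial := Nat.choose_le_pow_div _ _
      _ ≤ _ := by
        push_cast
        gcongr
        exact Nat.floor_le (by positivity)
  calc ((latPts D m).card : ℝ) / (m : ℝ) ^ n ≤ ((n + t * m) ^ n / n.factorial) / (m : ℝ) ^ n := by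
        gcongr
    _ = (t + n / (m : ℝ)) ^ n / n.factorial := by
        have e2 : (t + n / m : ℝ) = (n + t * m) / m := by field_simp; ring
        rw [e2, div_pow]
        field_simp

end Pool.Agent.Lib.Ehrhart
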