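import Mathlib
import Pool.Agent.Lib.Ehrhart.Sum
import Pool.Agent.Lib.Ehrhart.Fam
import Pool.Agent.Lib.H38.Ehr.Simplex

set_option autoImplicit false

/-!
# The volume inequality and the certificates in the equality case
-/

namespace Pool.Agent.Lib.Ehrhart

open MeasureTheory Set Filter Topology
open Pool.Agent.Lib.Helper13.Frob Pool.Agent.Lib.H38.Ehr
open scoped Pointwise

variable {n : ℕ}

/-- The order: first compare `w · u`, then lexicographically. -/
noncomputable def nu (w : Fin n → ℝ) : (Fin n → ℤ) →+ Lex (ℝ × Lex (Fin n → ℤ)) where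
  toFun u := toLex (dot w (fun i => (u i : ℝ)), toLex u)
  map_zero' := by
    have : dot w (fun i => (((0 : Fin n → ℤ) i : ℤ) : ℝ)) = 0 := by simp [dot]
    rw [this]; rfl
  map_add' u v := by
    have : dot w (fun i => (((u + v) i : ℤ) : ℝ)) =
        dot w (fun i => (u i : ℝ)) + dot w (fun i => (v i : ℝ)) := by
      rw [← dot_add]; congr 1; funext i; simp
    rw [this]; rfl

lemma nu_injective (w : Fin n → ℝ) : Function.Injective (nu w) := by
  intro u v h
  have h1 : ofLex (nu w u) = ofLex (nu w v) := by rw [h]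
  exact congrArg ofLex (Prod.ext_iff.1 h1).2

lemma dot_le_of_nu_le {w : Fin n → ℝ} {u v : Fin n → ℤ} (h : nu w v ≤ nu w u) :
    dot w (fun i => (v i : ℝ)) ≤ dot w (fun i => (u i : ℝ)) := by
  rcases (Prod.Lex.le_iff).1 h with h1 | h1
  · exact h1.le
  · exact h1.1.le

theorem exists_data (hn : 0 < n) {K : Set (Fin n → ℝ)} (hK : IsCompact K)
    (hc : Convex ℝ K) (h0 : (0 : Fin n → ℝ) ∈ interior K)
    (hlat : ∀ x ∈ interior K, (∀ i, ∃ z : ℤ, x i = (z : ℝ)) → x = 0) (w : Fin n → ℝ) :
    ∃ j, Data K w j := by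
  obtain ⟨j, ha, hb, hcc⟩ := exists_orders_fam hn hK hc h0 hlat (nu w) (nu_injective w)
  refine ⟨j, ha, hb, ?_⟩
  intro m hm u hu D hD
  exact hcc m hm u hu D fun v hv hvu => hD v hv (dot_le_of_nu_le hvu)

lemma affine_continuous (L : (Fin n → ℝ) →ᵃ[ℝ] ℝ) : Continuous L :=
  L.continuous_of_finiteDimensional

/-- the integral of an affine function -/
lemma integral_affine {K : Set (Fin n → ℝ)} (hK : IsCompact K) (L : (Fin n → ℝ) →ᵃ[ℝ] ℝ)
    {b : Fin n → ℝ} (hV : 0 < volume.real K) (hb : b = (volume.real K)⁻¹ • ∫ x in K, x) :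
    ∫ x in K, L x = volume.real K * L b := by
  have h1 : ∀ x, L x = (LinearMap.toContinuousLinearMap L.linear) x + L 0 := fun x => by
    rw [affine_decomp L x]; rfl
  have hint : IntegrableOn (fun x : Fin n → ℝ => x) K volume :=
    (continuous_id.continuousOn).integrableOn_compact hK
  have h2 : ∫ x in K, L x = ∫ x in K, ((LinearMap.toContinuousLinearMap L.linear) x + L 0) :=
    integral_congr_ae (Eventually.of_forall h1)
  rw [h2, integral_add ((LinearMap.toContinuousLinearMap L.linear).integrable_comp hint)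
    (by
      have : IntegrableOn (fun _ : Fin n → ℝ => L 0) K volume :=
        (continuous_const.continuousOn).integrableOn_compact hK
      exact this),
    (LinearMap.toContinuousLinearMap L.linear).integral_comp_comm hint, setIntegral_const,
    smul_eq_mul, h1 b, mul_add]
  congr 1
  rw [hb, map_smul, smul_eq_mul, ← mul_assoc, mul_inv_cancel₀ hV.ne', one_mul]

lemma hull_le {K : Set (Fin n → ℝ)} (hK : IsCompact K) {w : Fin n → ℝ}
    {j : ℕ → (Fin n → ℤ) → ℕ} (H : Data K w j) {b : Fin n → ℝ} {R : ℝ} (hR : 0 < R)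
    (hadm : ∀ c, 0 < c → c < R → ∀ y ∈ K, c • (y - b) ∈ interior K) :
    ∀ s, (b, s) ∈ convexHull ℝ (Gam K j) → s ≤ n / R := by
  intro s hs
  rw [le_div_iff₀ hR]
  have h1 : Tendsto (fun c : ℝ => c * s) (𝓝[<] R) (𝓝 (R * s)) := by
    have : ContinuousAt (fun c : ℝ => c * s) R := by fun_prop
    exact this.tendsto.mono_left nhdsWithin_le_nhds
  have h2 : ∀ᶠ c in 𝓝[<] R, c * s ≤ n := by
    filter_upwards [self_mem_nhdsWithin, mem_nhdsWithin_of_mem_nhds (lt_mem_nhds hR)] with c hc hc0
    exact hull_bound hK H hs hc0 (hadm c hc0 hc)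
  have := le_of_tendsto h1 h2
  linarith

section main

variable {K : Set (Fin n → ℝ)} (hn : 0 < n) (hK : IsCompact K) (hKc : Convex ℝ K)
  (h0 : (0 : Fin n → ℝ) ∈ interior K)
  {b : Fin n → ℝ} (hb : b = (volume.real K)⁻¹ • ∫ x in K, x) (hbi : b ∈ interior K)
  {R : ℝ} (hR : 0 < R) (hadm : ∀ c, 0 < c → c < R → ∀ y ∈ K, c • (y - b) ∈ interior K)
  {T : ℝ} (hT : 0 < T) (hTV : T ^ n = n.factorial * volume.real K)

include h0 hK in
lemma vol_pos : 0 < volume.real K := by
  rw [Measure.real, ENNReal.toReal_pos_iff]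
  exact ⟨lt_of_lt_of_le (isOpen_interior.measure_pos _ ⟨0, h0⟩) (measure_mono interior_subset),
    hK.measure_lt_top⟩

include hTV in
lemma lower_eq : T * volume.real K - T ^ (n + 1) / (n + 1).factorial =
    volume.real K * T * n / (n + 1) := by
  have hf : (n.factorial : ℝ) ≠ 0 := by exact_mod_cast n.factorial_ne_zero
  have hn1 : (n : ℝ) + 1 ≠ 0 := by positivity
  rw [pow_succ, hTV, Nat.factorial_succ]
  push_cast
  field_simp
  ring

include hK hKc h0 hb hbi hR hadm in
/-- A majorant with the right value at the centroid -/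
lemma exists_L {w : Fin n → ℝ} {j : ℕ → (Fin n → ℤ) → ℕ} (H : Data K w j) :
    ∃ L : (Fin n → ℝ) →ᵃ[ℝ] ℝ, ∫ x in K, L x = volume.real K * (n / R) ∧
      (∀ x ∈ K, 0 ≤ L x) ∧
      ∀ m u, 0 < m → u ∈ latPts K m → (j m u : ℝ) ≤ m * L (fun i => (u i : ℝ) / m) := by
  obtain ⟨L, h1, h2, h3⟩ := exists_majorant hK hKc h0 hbi (hull_le hK H hR hadm)
  refine ⟨L, ?_, h2, h3⟩
  rw [integral_affine hK L (vol_pos hK h0) hb, h1]

include hn hK hKc h0 hb hbi hR hadm hT hTV in
/-- The volume inequality. -/
theorem T_le (hlat : ∀ x ∈ interior K, (∀ i, ∃ z : ℤ, x i = (z : ℝ)) → x = 0) :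
    T ≤ (n + 1) / R := by
  obtain ⟨j, H⟩ := exists_data hn hK hKc h0 hlat 0
  obtain ⟨L, hL1, hL2, hL3⟩ := exists_L hK hKc h0 hb hbi hR hadm H
  have hLc := affine_continuous L
  have hV := vol_pos hK h0
  have h1 := integral_ineq hK hKc isCompact_empty convex_empty (empty_subset K) H hLc hL3
    (T := T) (β := 0) (γ := 0) hT.le (Eventually.of_forall fun m => by
      have : latPts (∅ : Set (Fin n → ℝ)) m = ∅ := by
        ext u
        rw [mem_latPts Bornology.isBounded_empty]
        simp
      rw [this]; simp)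
  rw [lower_eq hTV] at h1
  have h2 : ∫ x in K, min (L x) T ≤ ∫ x in K, L x := by
    refine integral_mono ((hLc.min continuous_const).continuousOn.integrableOn_compact hK)
      (hLc.continuousOn.integrableOn_compact hK) fun x => min_le_left _ _
  simp only [Measure.restrict_empty, integral_zero_measure, sub_zero, zero_mul, add_zero] at h1
  have h3 : volume.real K * T * n / (n + 1) ≤ volume.real K * (n / R) := by
    rw [← hL1]; exact h1.trans h2
  have hn' : (0 : ℝ) < n := by exact_mod_cast hn
  rw [le_div_iff₀ hR]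
  rw [div_le_iff₀ (by positivity)] at h3
  have h4 : volume.real K * (n / R) * (n + 1) * R = volume.real K * n * (n + 1) := by
    field_simp
  have h5 : volume.real K * T * n * R ≤ volume.real K * n * (n + 1) := by
    rw [← h4]; gcongr
  have h6 : 0 < volume.real K * n := by positivity
  have h7 : volume.real K * n * (T * R) ≤ volume.real K * n * (n + 1) := by
    calc volume.real K * n * (T * R) = volume.real K * T * n * R := by ring
      _ ≤ _ := h5
  exact le_of_mul_le_mul_left h7 h6

end main

/-- nonnegative continuous functions with nonpositive integral on a convex body vanish on it -/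
lemma eq_zero_of_integral {K : Set (Fin n → ℝ)} (hK : IsCompact K) (hKc : Convex ℝ K)
    (h0 : (interior K).Nonempty) {f : (Fin n → ℝ) → ℝ} (hf : Continuous f) (hnn : ∀ x, 0 ≤ f x)
    (hint : ∫ x in K, f x ≤ 0) : ∀ x ∈ K, f x = 0 := by
  have hfi : IntegrableOn f K volume := hf.continuousOn.integrableOn_compact hK
  have h1 : ∫ x in K, f x = 0 := le_antisymm hint (integral_nonneg hnn)
  have h2 : f =ᵐ[volume.restrict K] 0 :=
    (integral_eq_zero_iff_of_nonneg (fun x => hnn x) hfi).1 h1
  have h3 : f =ᵐ[volume.restrict (interior K)] 0 :=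
    ae_restrict_of_ae_restrict_of_subset interior_subset h2
  have h4 : EqOn f 0 (interior K) :=
    Measure.eqOn_open_of_ae_eq h3 isOpen_interior hf.continuousOn continuousOn_const
  intro x hx
  have hcl : x ∈ closure (interior K) := by
    rw [hKc.closure_interior_eq_closure_of_nonempty_interior h0]
    exact subset_closure hx
  exact closure_minimal (fun y hy => h4 hy) (isClosed_eq hf continuous_const) hcl

/-- a compact convex subset of full volume is everything -/
lemma eq_of_volume {K D : Set (Fin n → ℝ)} (hK : IsCompact K) (hKc : Convex ℝ K) (hD : IsCompact D)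
    (hDK : D ⊆ K) (hne : (interior K).Nonempty) (hvol : volume.real K ≤ volume.real D) : K = D := by
  refine Subset.antisymm ?_ hDK
  intro x hx
  by_contra hxD
  have hopen : IsOpen (interior K ∩ Dᶜ) := isOpen_interior.inter hD.isClosed.isOpen_compl
  have hnonempty : (interior K ∩ Dᶜ).Nonempty := by
    have hcl : x ∈ closure (interior K) := by
      rw [hKc.closure_interior_eq_closure_of_nonempty_interior hne]
      exact subset_closure hx
    rw [mem_closure_iff] at hcl
    obtain ⟨y, hy1, hy2⟩ := hcl Dᶜ hD.isClosed.isOpen_compl hxD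
    exact ⟨y, hy2, hy1⟩
  have hpos := hopen.measure_pos volume hnonempty
  have h1 : volume D + volume (interior K ∩ Dᶜ) ≤ volume K := by
    rw [← measure_union (by
      rw [Set.disjoint_left]; intro y hy1 hy2; exact hy2.2 hy1) hopen.measurableSet]
    exact measure_mono (union_subset hDK fun y hy => interior_subset hy.1)
  have h2 : volume K ≤ volume D := by
    rw [Measure.real, Measure.real] at hvol
    exact (ENNReal.toReal_le_toReal hK.measure_lt_top.ne hD.measure_lt_top.ne).1 hvol
  have h3 : volume D + volume (interior K ∩ Dᶜ) ≤ volume D + 0 := by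
    rw [add_zero]; exact h1.trans h2
  have h4 := (ENNReal.add_le_add_iff_left hD.measure_lt_top.ne).1 h3
  exact absurd h4 (not_le.2 hpos)

section eqcase

variable {K : Set (Fin n → ℝ)} (hK : IsCompact K) (hKc : Convex ℝ K)
  (h0 : (0 : Fin n → ℝ) ∈ interior K)
  {w : Fin n → ℝ} {j : ℕ → (Fin n → ℤ) → ℕ} (H : Data K w j)
  {L : (Fin n → ℝ) →ᵃ[ℝ] ℝ}
  {T : ℝ} (hT : 0 < T) (hTV : T ^ n = n.factorial * volume.real K)
  (hL1 : ∫ x in K, L x ≤ volume.real K * T * n / (n + 1))
  (hL2 : ∀ x ∈ K, 0 ≤ L x)
  (hL3 : ∀ m u, 0 < m → u ∈ latPts K m → (j m u : ℝ) ≤ m * L (fun i => (u i : ℝ) / m))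

include hK hKc h0 H hT hTV hL1 hL3 in
lemma L_le : ∀ x ∈ K, L x ≤ T := by
  have hLc := affine_continuous L
  have h1 := integral_ineq hK hKc isCompact_empty convex_empty (empty_subset K) H hLc hL3
    (T := T) (β := 0) (γ := 0) hT.le (Eventually.of_forall fun m => by
      have : latPts (∅ : Set (Fin n → ℝ)) m = ∅ := by
        ext u
        rw [mem_latPts Bornology.isBounded_empty]
        simp
      rw [this]; simp)
  rw [lower_eq hTV] at h1
  simp only [Measure.restrict_empty, integral_zero_measure, sub_zero, zero_mul, add_zero] at h1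
  have h2 : ∫ x in K, (L x - min (L x) T) ≤ 0 := by
    rw [integral_sub (hLc.continuousOn.integrableOn_compact hK)
      ((hLc.min continuous_const).continuousOn.integrableOn_compact hK)]
    linarith
  have h3 := eq_zero_of_integral hK hKc ⟨0, h0⟩ (hLc.sub (hLc.min continuous_const))
    (fun x => by
      have := min_le_left (L x) T
      simp only [Pi.sub_apply]
      linarith) h2
  intro x hx
  have h4 := h3 x hx
  simp only [Pi.sub_apply] at h4
  have h5 := min_le_right (L x) T
  linarith

include hK hKc h0 H hT hTV hL1 hL3 in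
/-- mean value lemma -/
lemma exists_le {D : Set (Fin n → ℝ)} (hD : IsCompact D) (hDc : Convex ℝ D) (hDK : D ⊆ K)
    (hDi : (interior D).Nonempty) {β γ : ℝ}
    (hDj : ∀ᶠ m in atTop, ∑ u ∈ latPts D m, (j m u : ℝ) ≤ (β * m + γ) * (latPts D m).card) :
    ∃ x ∈ D, L x ≤ β := by
  have hLc := affine_continuous L
  have hLT := L_le hK hKc h0 H hT hTV hL1 hL3
  have h1 := integral_ineq hK hKc hD hDc hDK H hLc hL3 hT.le hDj
  rw [lower_eq hTV] at h1
  have h2 : ∫ x in K, min (L x) T = ∫ x in K, L x :=
    setIntegral_congr_fun hK.measurableSet fun x hx => min_eq_left (hLT x hx)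
  have h3 : ∫ x in D, min (L x) T = ∫ x in D, L x :=
    setIntegral_congr_fun hD.measurableSet fun x hx => min_eq_left (hLT x (hDK hx))
  rw [h2, h3] at h1
  have h4 : ∫ x in D, L x ≤ β * volume.real D := by linarith
  by_contra hcon
  push Not at hcon
  have h5 : ∫ x in D, max (L x - β) 0 ≤ 0 := by
    have h6 : ∫ x in D, max (L x - β) 0 = ∫ x in D, (L x - β) :=
      setIntegral_congr_fun hD.measurableSet fun x hx => by
        have := hcon x hx
        exact max_eq_left (by linarith)
    rw [h6, integral_sub (hLc.continuousOn.integrableOn_compact hD)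
      ((continuous_const.continuousOn (s := D)).integrableOn_compact hD), setIntegral_const,
      smul_eq_mul]
    linarith
  have h7 := eq_zero_of_integral hD hDc hDi
    ((hLc.sub continuous_const).max continuous_const) (fun x => le_max_right _ _) h5
  obtain ⟨x, hx⟩ := hDi
  have h8 := h7 x (interior_subset hx)
  have h9 := hcon x (interior_subset hx)
  have h10 := le_max_left (L x - β) 0
  simp only [Pi.sub_apply] at h8
  linarith

include hK hKc h0 H hT hTV hL1 hL3 in
/-- the majorant at the origin -/
lemma L_zero_le : L 0 ≤ n := by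
  have hLc := affine_continuous L
  obtain ⟨δ0, hδ0, hball⟩ := Metric.isOpen_iff.1 isOpen_interior 0 h0
  -- for every c < 1 and η > 0
  have key : ∀ c : ℝ, 0 < c → c < 1 → ∀ η : ℝ, 0 < η → L 0 ≤ n / c + η := by
    intro c hc0 hc1 η hη
    obtain ⟨δ1, hδ1, hδ1'⟩ := Metric.continuous_iff.1 hLc 0 η hη
    set δ := min δ0 δ1 / 2 with hδ
    have hδpos : 0 < δ := by rw [hδ]; positivity
    have hδ0' : δ < δ0 := by
      have := min_le_left δ0 δ1; rw [hδ]; linarith [lt_min hδ0 hδ1]
    have hδ1'' : δ < δ1 := by
      have := min_le_right δ0 δ1; rw [hδ]; linarith [lt_min hδ0 hδ1]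
    set D : Set (Fin n → ℝ) := Metric.closedBall 0 δ with hD
    have hDK : D ⊆ K := fun x hx => interior_subset (hball (lt_of_le_of_lt hx hδ0'))
    have hDcomp : IsCompact D := isCompact_closedBall _ _
    have hDconv : Convex ℝ D := convex_closedBall _ _
    have hDint : (interior D).Nonempty := by
      refine ⟨0, ?_⟩
      rw [mem_interior]
      exact ⟨Metric.ball 0 δ, Metric.ball_subset_closedBall, Metric.isOpen_ball,
        Metric.mem_ball_self hδpos⟩
    have hDj : ∀ᶠ m in atTop, ∑ u ∈ latPts D m, (j m u : ℝ) ≤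
        (n / c * m + 0) * (latPts D m).card := by
      filter_upwards [eventually_gt_atTop 0] with m hm
      have hsymm : ∀ u, u ∈ latPts D m ↔ -u ∈ latPts D m := by
        intro u
        rw [mem_latPts hDcomp.isBounded, mem_latPts hDcomp.isBounded]
        have e : (fun i => (((-u) i : ℤ) : ℝ)) = -(fun i => (u i : ℝ)) := by funext i; simp
        rw [e]
        have hneg : (m : ℝ) • D = -((m : ℝ) • D) := by
          rw [← Set.smul_set_neg]
          congr 1
          rw [hD]; simp
        constructor
        · intro h; rw [hneg]; simpa using h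
        · intro h; rw [hneg]; simpa using h
      have hzero : (0 : Fin n → ℤ) ∈ latPts D m := by
        rw [mem_latPts hDcomp.isBounded, Set.mem_smul_set]
        exact ⟨0, Metric.mem_closedBall_self hδpos.le, by funext i; simp⟩
      have hcard : 0 < (latPts D m).card := Finset.card_pos.2 ⟨0, hzero⟩
      have hsum0 : ∀ l, ∑ u ∈ latPts D m, (u l : ℝ) = 0 := by
        intro l
        have h1 : ∑ u ∈ latPts D m, (u l : ℝ) = ∑ u ∈ latPts D m, ((-u) l : ℝ) := by
          refine Finset.sum_bij' (fun u _ => -u) (fun u _ => -u) ?_ ?_ ?_ ?_ ?_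
          · intro u hu; exact (hsymm u).1 hu
          · intro u hu; exact (hsymm u).1 hu
          · intro u _; simp
          · intro u _; simp
          · intro u _; simp
        simp only [Pi.neg_apply] at h1
        push_cast at h1
        simp only [Finset.sum_neg_distrib] at h1
        linarith
      have h2 := H.b (latPts D m) (fun _ => m) (fun u => u) (fun _ => 1)
        (fun u hu => ⟨hm, latPts_subset hK hDcomp hDK m hu⟩) (by simpa using hcard) c hc0 (by
          intro y hy
          have h3 : (fun l => (∑ i ∈ latPts D m, (((1 : ℕ) : ℝ)) * (i l : ℝ)) /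
              (∑ i ∈ latPts D m, (((1 : ℕ) : ℝ)) * (m : ℝ))) = (0 : Fin n → ℝ) := by
            funext l
            simp [hsum0 l]
          rw [h3, sub_zero]
          have h4 := hKc.combo_interior_self_mem_interior h0 hy (show (0 : ℝ) < 1 - c by linarith)
            hc0.le (by ring)
          simpa using h4)
      simp only [Nat.cast_one, one_mul, Finset.sum_const, nsmul_eq_mul] at h2
      have h5 : ∑ u ∈ latPts D m, (j m u : ℝ) ≤ n * ((latPts D m).card * m) / c := by
        rw [le_div_iff₀ hc0]; linarith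
      calc ∑ u ∈ latPts D m, (j m u : ℝ) ≤ n * ((latPts D m).card * m) / c := h5
        _ = (n / c * m + 0) * (latPts D m).card := by ring
    obtain ⟨x, hx, hLx⟩ := exists_le hK hKc h0 H hT hTV hL1 hL3 hDcomp hDconv hDK hDint hDj
    have h6 : dist (L x) (L 0) < η := hδ1' x (lt_of_le_of_lt hx hδ1'')
    rw [Real.dist_eq] at h6
    have := (abs_lt.1 h6).1
    linarith
  -- conclude
  have h1 : ∀ c : ℝ, 0 < c → c < 1 → L 0 ≤ n / c := fun c hc0 hc1 =>
    le_of_forall_pos_le_add fun η hη => key c hc0 hc1 η hη
  have h2 : Tendsto (fun c : ℝ => (n : ℝ) / c) (𝓝[<] 1) (𝓝 (n / 1)) := by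
    have : ContinuousAt (fun c : ℝ => (n : ℝ) / c) 1 := by
      exact continuousAt_const.div continuousAt_id one_ne_zero
    exact this.tendsto.mono_left nhdsWithin_le_nhds
  rw [div_one] at h2
  refine ge_of_tendsto h2 ?_
  filter_upwards [self_mem_nhdsWithin, mem_nhdsWithin_of_mem_nhds (lt_mem_nhds one_pos)] with c h3 h4
  exact h1 c h4 h3

include hK hKc h0 H hT hTV hL1 hL2 hL3 in
/-- the majorant vanishes at the exposed point -/
lemma L_exposed {p : Fin n → ℝ} (hp : p ∈ K) (hexp : Exposes K w p) : L p = 0 := by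
  have hLc := affine_continuous L
  refine le_antisymm ?_ (hL2 p hp)
  -- for every ε
  have key : ∀ ε : ℝ, 0 < ε → ∀ η : ℝ, 0 < η → ∃ x, (∀ i, |x i - p i| ≤ ε) ∧ L x ≤ 4 * n * ε + η := by
    intro ε hε η hη
    set D : Set (Fin n → ℝ) := {x | x ∈ K ∧ dot w x ≤ dot w p + ε ^ 2 / 2} with hD
    have hdotc : Continuous (dot w) := by unfold dot; fun_prop
    have hDeq : D = K ∩ {x | dot w x ≤ dot w p + ε ^ 2 / 2} := rfl
    have hDcomp : IsCompact D := by
      rw [hDeq]; exact hK.inter_right (isClosed_le hdotc continuous_const)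
    have hDconv : Convex ℝ D := by
      rw [hDeq]
      refine hKc.inter ?_
      exact convex_halfSpace_le (IsLinearMap.mk (dot_add w) (fun c x => dot_smul w x c)) _
    have hDK : D ⊆ K := fun x hx => hx.1
    have hnear : ∀ x ∈ D, ∀ i, |x i - p i| ≤ ε := by
      intro x hx i
      have h1 := hexp x hx.1
      have h2 : Pool.Agent.Lib.H38.Ehr.sq (x - p) ≤ ε ^ 2 := by have := hx.2; linarith
      have h3 : (x i - p i) ^ 2 ≤ Pool.Agent.Lib.H38.Ehr.sq (x - p) := by
        unfold Pool.Agent.Lib.H38.Ehr.sq
        exact Finset.single_le_sum (f := fun i => (x - p) i ^ 2) (fun i _ => sq_nonneg _)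
          (Finset.mem_univ i)
      exact abs_le_of_sq_le_sq (h3.trans h2) hε.le
    have hDint : (interior D).Nonempty := by
      have h1 : (interior K ∩ {x | dot w x < dot w p + ε ^ 2 / 2}).Nonempty := by
        have hcl : p ∈ closure (interior K) := by
          rw [hKc.closure_interior_eq_closure_of_nonempty_interior ⟨0, h0⟩]
          exact subset_closure hp
        rw [mem_closure_iff] at hcl
        have h2 : 0 < ε ^ 2 / 2 := by positivity
        obtain ⟨y, hy1, hy2⟩ := hcl {x | dot w x < dot w p + ε ^ 2 / 2}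
          (isOpen_lt hdotc continuous_const) (by simp only [mem_ofPred_eq]; linarith)
        exact ⟨y, hy2, hy1⟩
      obtain ⟨y, hy⟩ := h1
      refine ⟨y, mem_interior.2 ⟨interior K ∩ {x | dot w x < dot w p + ε ^ 2 / 2}, ?_,
        isOpen_interior.inter (isOpen_lt hdotc continuous_const), hy⟩⟩
      rintro x ⟨hx1, hx2⟩
      exact ⟨interior_subset hx1, le_of_lt hx2⟩
    have hDj : ∀ᶠ m in atTop, ∑ u ∈ latPts D m, (j m u : ℝ) ≤
        ((4 * n * ε + η) * m + 0) * (latPts D m).card := by
      obtain ⟨m0, hm0⟩ := exists_nat_gt (2 * n / η)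
      filter_upwards [eventually_gt_atTop 0, eventually_ge_atTop m0] with m hm hmm
      have hm' : (0 : ℝ) < m := by exact_mod_cast hm
      have hmm' : (2 * n / η : ℝ) < m := lt_of_lt_of_le hm0 (by exact_mod_cast hmm)
      have h2nη : (2 * n : ℝ) ≤ η * m := by
        rw [div_lt_iff₀ hη] at hmm'; linarith
      have hdotdiv : ∀ v : Fin n → ℤ, dot w (fun i => (v i : ℝ)) = m * dot w (fun i => (v i : ℝ) / m) := by
        intro v
        rw [← dot_smul]
        congr 1
        funext i
        simp only [Pi.smul_apply, smul_eq_mul]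
        field_simp
      have hbound : ∀ u ∈ latPts D m, (j m u : ℝ) ≤ (4 * n * ε + η) * m := by
        intro u hu
        have huK := latPts_subset hK hDcomp hDK m hu
        have huD := div_mem_of_mem_latPts hDcomp hm hu
        set D0 : ℕ := ⌈2 * ε * m⌉₊ with hD0
        have h1 := H.c m hm u huK D0 (by
          intro v hv hvu i
          have hvK := div_mem_of_mem_latPts hK hm hv
          have hvD : (fun i => (v i : ℝ) / m : Fin n → ℝ) ∈ D := by
            refine ⟨hvK, ?_⟩
            rw [hdotdiv v, hdotdiv u] at hvu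
            have := le_of_mul_le_mul_left hvu hm'
            exact this.trans huD.2
          have h3 := hnear _ huD i
          have h4 := hnear _ hvD i
          have h5 : |(v i : ℝ) / m - (u i : ℝ) / m| ≤ 2 * ε := by
            have e : (v i : ℝ) / m - (u i : ℝ) / m = ((v i : ℝ) / m - p i) - ((u i : ℝ) / m - p i) := by
              ring
            rw [e]
            exact (abs_sub _ _).trans (by linarith)
          have h6 : |(v i : ℝ) - u i| ≤ 2 * ε * m := by
            have e : (v i : ℝ) - u i = ((v i : ℝ) / m - (u i : ℝ) / m) * m := by field_simp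
            rw [e, abs_mul, abs_of_pos hm']
            gcongr
          have h7 : (((|v i - u i| : ℤ)) : ℝ) ≤ ((D0 : ℤ) : ℝ) := by
            push_cast
            exact h6.trans (Nat.le_ceil _)
          exact_mod_cast h7)
        have h2 : (j m u : ℝ) ≤ 2 * n * D0 := by exact_mod_cast h1
        have h8 : (D0 : ℝ) ≤ 2 * ε * m + 1 := (Nat.ceil_lt_add_one (by positivity)).le
        calc (j m u : ℝ) ≤ 2 * n * D0 := h2
          _ ≤ 2 * n * (2 * ε * m + 1) := by gcongr
          _ = 4 * n * ε * m + 2 * n := by ring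
          _ ≤ 4 * n * ε * m + η * m := by linarith
          _ = _ := by ring
      calc ∑ u ∈ latPts D m, (j m u : ℝ) ≤ ∑ u ∈ latPts D m, (4 * n * ε + η) * m :=
            Finset.sum_le_sum hbound
        _ = _ := by rw [Finset.sum_const, nsmul_eq_mul]; ring
    obtain ⟨x, hx, hLx⟩ := exists_le hK hKc h0 H hT hTV hL1 hL3 hDcomp hDconv hDK hDint hDj
    exact ⟨x, hnear x hx, hLx⟩
  refine le_of_forall_pos_le_add fun η hη => ?_
  obtain ⟨δ, hδ, hδ'⟩ := Metric.continuous_iff.1 hLc p (η / 3) (by positivity)
  set ε : ℝ := min (δ / 2) (η / 3 / (4 * n + 1)) with hε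
  have hεpos : 0 < ε := lt_min (by positivity) (by positivity)
  obtain ⟨x, hx1, hx2⟩ := key ε hεpos (η / 3) (by positivity)
  have h1 : dist x p < δ := by
    refine lt_of_le_of_lt ((dist_pi_le_iff hεpos.le).2 fun i => ?_)
      (lt_of_le_of_lt (min_le_left _ _) (by linarith))
    rw [Real.dist_eq]; exact hx1 i
  have h2 := hδ' x h1
  rw [Real.dist_eq] at h2
  have h3 := (abs_lt.1 h2).1
  have h4 : 4 * n * ε ≤ η / 3 := by
    have h5 : ε ≤ η / 3 / (4 * n + 1) := min_le_right _ _
    calc (4 * n * ε : ℝ) ≤ (4 * n + 1) * ε := by nlinarith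
      _ ≤ (4 * n + 1) * (η / 3 / (4 * n + 1)) := by gcongr
      _ = η / 3 := by field_simp
  linarith

include hK hKc h0 H hT hTV hL1 hL2 hL3 in
/-- the certificate -/
theorem cert {p : Fin n → ℝ} (hp : p ∈ K) (hexp : Exposes K w p) : Cert K T p L where
  nonneg := hL2
  le := L_le hK hKc h0 H hT hTV hL1 hL3
  zero := L_exposed hK hKc h0 H hT hTV hL1 hL2 hL3 hp hexp
  origin := L_zero_le hK hKc h0 H hT hTV hL1 hL3
  cone := by
    intro s hs0 hs1 x hx hLx
    have hLc := affine_continuous L
    have hLT := L_le hK hKc h0 H hT hTV hL1 hL3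
    have hLp := L_exposed hK hKc h0 H hT hTV hL1 hL2 hL3 hp hexp
    set Ks : Set (Fin n → ℝ) := {x | x ∈ K ∧ L x ≤ s * T} with hKs
    have hKsc : IsCompact Ks := by
      have : Ks = K ∩ {x | L x ≤ s * T} := rfl
      rw [this]; exact hK.inter_right (isClosed_le hLc continuous_const)
    have hKsconv : Convex ℝ Ks := by
      have : Ks = K ∩ {x | L x ≤ s * T} := rfl
      rw [this]
      refine hKc.inter ?_
      intro x hx y hy a b ha hb hab
      simp only [mem_ofPred_eq] at hx hy ⊢
      rw [Convex.combo_affine_apply hab, smul_eq_mul, smul_eq_mul]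
      calc a * L x + b * L y ≤ a * (s * T) + b * (s * T) := by gcongr
        _ = s * T := by rw [← add_mul, hab, one_mul]
    set D : Set (Fin n → ℝ) := AffineMap.homothety p s '' K with hD
    have hhom : ∀ y, AffineMap.homothety p s y = p + s • (y - p) := by
      intro y
      rw [AffineMap.homothety_apply, vsub_eq_sub, vadd_eq_add, add_comm]
    have hDcomp : IsCompact D := hK.image (by
      have : (fun y => AffineMap.homothety p s y) = fun y => p + s • (y - p) := funext hhom
      change Continuous (fun y => AffineMap.homothety p s y)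
      rw [this]; fun_prop)
    have hDsub : D ⊆ Ks := by
      rintro _ ⟨y, hy, rfl⟩
      rw [hhom]
      have e : p + s • (y - p) = (1 - s) • p + s • y := by
        rw [smul_sub, sub_smul, one_smul]; abel
      rw [e]
      refine ⟨hKc hp hy (by linarith) hs0.le (by ring), ?_⟩
      rw [Convex.combo_affine_apply (by ring), hLp, smul_zero, zero_add, smul_eq_mul]
      have := hLT y hy
      gcongr
    have hvolD : volume.real D = s ^ n * volume.real K := by
      rw [hD, Measure.real, Measure.addHaar_image_homothety, Module.finrank_fin_fun,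
        ENNReal.toReal_mul, ENNReal.toReal_ofReal (abs_nonneg _), abs_of_pos (by positivity)]
      rfl
    have hint : (interior Ks).Nonempty := by
      have h1 : 0 < volume.real D := by
        rw [hvolD]; have := vol_pos hK h0; positivity
      by_contra hcon
      rw [not_nonempty_iff_eq_empty] at hcon
      have h2 : volume Ks = 0 := by
        have h3 := hKsconv.addHaar_frontier volume
        have h4 : Ks ⊆ frontier Ks := by
          rw [frontier, hcon, sdiff_empty]
          exact subset_closure
        exact measure_mono_null h4 h3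
      have h5 : volume D = 0 := measure_mono_null hDsub h2
      rw [Measure.real, h5] at h1
      simp at h1
    have hvol : volume.real Ks ≤ volume.real D := by
      rw [hvolD]
      have h1 := sublevel_le hK hKc H hLc hL3 (t := s * T) (by positivity)
      refine h1.trans (le_of_eq ?_)
      rw [mul_pow, hTV]
      have : (n.factorial : ℝ) ≠ 0 := by exact_mod_cast n.factorial_ne_zero
      field_simp
    have heq := eq_of_volume hKsc hKsconv hDcomp hDsub hint hvol
    have hxD : x ∈ D := by rw [← heq]; exact ⟨hx, hLx⟩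
    obtain ⟨y, hy, hyx⟩ := hxD
    exact ⟨y, hy, by rw [← hyx, hhom]⟩

end eqcase

end Pool.Agent.Lib.Ehrhart
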