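import Mathlib
import Pool.Agent.Lib.Ehrhart.Cert
import Pool.Agent.Lib.H38.Ehr.Cover
import Pool.Agent.Lib.H38.Ehr.Ratio
import Pool.Agent.Lib.H38.Ehr.Std

set_option autoImplicit false

/-!
# The volume bound with the ratio invariant, and its equality case
-/

namespace Pool.Agent.Lib.Ehrhart

open MeasureTheory Set Filter Topology
open Pool.Agent.Lib.Helper13.Frob Pool.Agent.Lib.H38.Ehr
open scoped Pointwise Matrix

variable {n : ℕ}

lemma cast_app (z : Fin n → ℤ) (i : Fin n) : Pool.Agent.Lib.H38.Ehr.cast z i = (z i : ℝ) := rfl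

/-- the side length -/
lemma exists_T (hn : 0 < n) {V : ℝ} (hV : 0 < V) :
    ∃ T : ℝ, 0 < T ∧ T ^ n = n.factorial * V := by
  have hf : (0 : ℝ) < n.factorial := by exact_mod_cast n.factorial_pos
  refine ⟨(n.factorial * V) ^ ((n : ℝ)⁻¹), by positivity, ?_⟩
  exact Real.rpow_inv_natCast_pow (by positivity) hn.ne'

section

variable {K : Set (Fin n → ℝ)} (hn : 0 < n) (hK : IsCompact K) (hKc : Convex ℝ K)
  (h0 : (0 : Fin n → ℝ) ∈ interior K)
  (hlat : ∀ x ∈ interior K, (∀ i, ∃ z : ℤ, x i = (z : ℝ)) → x = 0)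
  {b : Fin n → ℝ} (hb : b = (volume.real K)⁻¹ • ∫ x in K, x)
  {R : ℝ} (hR : 0 < R) (hadm : ∀ c, 0 < c → c < R → ∀ y ∈ K, c • (y - b) ∈ interior K)

include hn hK hKc h0 hlat hb hR hadm in
theorem volume_le : volume.real K ≤ ((n : ℝ) + 1) ^ n / ((n.factorial : ℝ) * R ^ n) := by
  have hbi := centroid_mem_interior hK hKc h0 hb
  obtain ⟨T, hT, hTV⟩ := exists_T hn (vol_pos hK h0)
  have h1 := T_le hn hK hKc h0 hb hbi hR hadm hT hTV hlat
  have hf : (0 : ℝ) < n.factorial := by exact_mod_cast n.factorial_pos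
  have h2 : T ^ n ≤ ((n + 1) / R) ^ n := by gcongr
  rw [hTV, div_pow] at h2
  rw [le_div_iff₀ (by positivity)]
  rw [le_div_iff₀ (by positivity)] at h2
  linarith

/-- a matrix of an affine basis -/
theorem exists_matrix (e : AffineBasis (Fin (n + 1)) ℝ (Fin n → ℝ))
    (he : ∀ i, e.coord i 0 = 1 / (n + 1)) :
    ∃ A : Matrix (Fin n) (Fin n) ℝ, A.det ≠ 0 ∧
      ∀ x i, (A *ᵥ x) i = (n + 1) * e.coord i.succ x - 1 := by
  set A : Matrix (Fin n) (Fin n) ℝ := LinearMap.toMatrix' (LinearMap.pi fun i : Fin n =>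
    ((n : ℝ) + 1) • (e.coord i.succ).linear) with hA
  have hAx : ∀ x i, (A *ᵥ x) i = (n + 1) * e.coord i.succ x - 1 := by
    intro x i
    have h1 : A *ᵥ x = (LinearMap.pi fun i : Fin n =>
        ((n : ℝ) + 1) • (e.coord i.succ).linear) x := LinearMap.toMatrix'_mulVec _ x
    rw [h1, affine_decomp (e.coord i.succ) x, he]
    simp only [LinearMap.pi_apply, LinearMap.smul_apply, smul_eq_mul]
    have : (n : ℝ) + 1 ≠ 0 := by positivity
    field_simp
    ring
  refine ⟨A, ?_, hAx⟩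
  intro hdet
  obtain ⟨x, hx0, hx⟩ := Matrix.exists_mulVec_eq_zero_iff.2 hdet
  apply hx0
  have hn1 : (n : ℝ) + 1 ≠ 0 := by positivity
  have h1 : ∀ i : Fin n, e.coord i.succ x = 1 / (n + 1) := by
    intro i
    have h2 := hAx x i
    rw [hx, Pi.zero_apply] at h2
    field_simp
    linarith
  refine e.ext_elem fun i => ?_
  rw [he]
  refine Fin.cases ?_ h1 i
  have h3 := e.sum_coord_apply_eq_one x
  have h4 := e.sum_coord_apply_eq_one (0 : Fin n → ℝ)
  rw [Fin.sum_univ_succ] at h3 h4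
  simp only [h1, he] at h3 h4
  linarith

include hn hK hKc h0 hlat hb hR hadm in
theorem eq_case (hR1 : R ≤ 1)
    (hvol : volume.real K = ((n : ℝ) + 1) ^ n / ((n.factorial : ℝ) * R ^ n)) :
    ∃ A : Matrix (Fin n) (Fin n) ℤ, IsUnit A.det ∧
      (fun x : Fin n → ℝ => (A.map (Int.cast : ℤ → ℝ)) *ᵥ x + 1) '' K = stdS n (n + 1) := by
  have hbi := centroid_mem_interior hK hKc h0 hb
  obtain ⟨T, hT, hTV⟩ := exists_T hn (vol_pos hK h0)
  have hf : (0 : ℝ) < n.factorial := by exact_mod_cast n.factorial_pos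
  have hn1 : (0 : ℝ) < (n : ℝ) + 1 := by positivity
  have hTR : T = (n + 1) / R := by
    have h2 : T ^ n = ((n + 1) / R) ^ n := by
      rw [hTV, hvol, div_pow]; field_simp
    exact (pow_left_inj₀ hT.le (by positivity) hn.ne').1 h2
  -- certificates
  have hcert : ∀ p ∈ Far K, ∃ L : (Fin n → ℝ) →ᵃ[ℝ] ℝ, Cert K T p L := by
    rintro p ⟨hp, w, hw⟩
    obtain ⟨j, H⟩ := exists_data hn hK hKc h0 hlat w
    obtain ⟨L, hL1, hL2, hL3⟩ := exists_L hK hKc h0 hb hbi hR hadm H
    refine ⟨L, cert hK hKc h0 H hT hTV (le_of_eq ?_) hL2 hL3 hp hw⟩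
    rw [hL1, hTR]
    field_simp
  obtain ⟨e, hKe, hTn, hco⟩ := simplex hn hK hKc h0 hT hcert
  -- R = 1
  have hRone : R = 1 := by
    refine le_antisymm hR1 ?_
    rw [hTR, div_le_iff₀ hR] at hTn
    by_contra hcon
    push Not at hcon
    nlinarith
  have hTone : T = n + 1 := by rw [hTR, hRone, div_one]
  have he : ∀ i, e.coord i 0 = 1 / (n + 1) := by
    have h1 : ∑ i, (n - T * (1 - e.coord i 0)) = 0 := by
      rw [Finset.sum_sub_distrib, ← Finset.mul_sum, Finset.sum_sub_distrib,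
        e.sum_coord_apply_eq_one, hTone]
      simp
    have h2 := (Finset.sum_eq_zero_iff_of_nonneg fun i _ => by
      have := hco i
      linarith).1 h1
    intro i
    have h3 := h2 i (Finset.mem_univ i)
    rw [hTone] at h3
    field_simp
    linarith
  obtain ⟨A, hdet, hA⟩ := exists_matrix e he
  have hmemK : ∀ x, x ∈ K ↔ ∀ i, 0 ≤ e.coord i x := by
    intro x
    rw [hKe, e.convexHull_eq_nonneg_coord]
    rfl
  have hcoord0 : ∀ x, (n + 1) * e.coord 0 x = 1 - ∑ i, (A *ᵥ x) i := by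
    intro x
    have h1 := e.sum_coord_apply_eq_one x
    rw [Fin.sum_univ_succ] at h1
    have h2 : ∑ i, (A *ᵥ x) i = (n + 1) * ∑ i : Fin n, e.coord i.succ x - n := by
      rw [Finset.sum_congr rfl fun i _ => hA x i, Finset.sum_sub_distrib, ← Finset.mul_sum]
      simp
    rw [h2, show e.coord 0 x = 1 - ∑ i : Fin n, e.coord i.succ x by linarith]
    ring
  have himg : (fun x : Fin n → ℝ => A *ᵥ x + 1) '' K = stdS n (n + 1) := by
    ext y
    constructor
    · rintro ⟨x, hx, rfl⟩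
      rw [hmemK] at hx
      refine ⟨fun i => ?_, ?_⟩
      · simp only [Pi.add_apply, Pi.one_apply]
        rw [hA]
        have := mul_nonneg hn1.le (hx i.succ)
        linarith
      · simp only [Pi.add_apply, Pi.one_apply]
        rw [Finset.sum_add_distrib]
        have h1 := mul_nonneg hn1.le (hx 0)
        rw [hcoord0] at h1
        simp
        linarith
    · rintro ⟨hy0, hy1⟩
      have hxy : A *ᵥ (A⁻¹ *ᵥ (y - 1)) = y - 1 := by
        rw [Matrix.mulVec_mulVec, Matrix.mul_nonsing_inv _ (isUnit_iff_ne_zero.2 hdet),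
          Matrix.one_mulVec]
      refine ⟨A⁻¹ *ᵥ (y - 1), ?_, by simp only; rw [hxy]; simp⟩
      rw [hmemK]
      intro i
      refine Fin.cases ?_ (fun i => ?_) i
      · have h1 := hcoord0 (A⁻¹ *ᵥ (y - 1))
        rw [hxy] at h1
        simp only [Pi.sub_apply, Pi.one_apply, Finset.sum_sub_distrib] at h1
        simp at h1
        have h2 : 0 ≤ (n + 1) * e.coord 0 (A⁻¹ *ᵥ (y - 1)) := by rw [h1]; linarith
        exact (mul_nonneg_iff_of_pos_left hn1).1 h2
      · have h1 := hA (A⁻¹ *ᵥ (y - 1)) i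
        rw [hxy] at h1
        simp only [Pi.sub_apply, Pi.one_apply] at h1
        have h2 : 0 ≤ (n + 1) * e.coord i.succ (A⁻¹ *ᵥ (y - 1)) := by
          have := hy0 i; linarith
        exact (mul_nonneg_iff_of_pos_left hn1).1 h2
  -- the determinant
  have hdet1 : |A.det| = 1 := by
    have h1 := volume_real_image_aff A hdet 1 hK.measurableSet
    rw [himg, volume_real_stdS n hn1.le, hvol, hRone, one_pow, mul_one] at h1
    have h2 : (0 : ℝ) < ((n : ℝ) + 1) ^ n / n.factorial := by positivity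
    exact (mul_right_cancel₀ h2.ne' (by rw [one_mul]; exact h1)).symm
  -- lattice points
  have hcov : ∀ z : Fin n → ℤ, z ≠ 0 → (∃ i, (A *ᵥ cast z) i ≤ -1) ∨ 1 ≤ ∑ i, (A *ᵥ cast z) i := by
    intro z hz
    by_contra hcon
    push Not at hcon
    obtain ⟨h1, h2⟩ := hcon
    apply hz
    have hopen : IsOpen {x : Fin n → ℝ | (∀ i, -1 < (A *ᵥ x) i) ∧ ∑ i, (A *ᵥ x) i < 1} := by
      have hc : Continuous fun x : Fin n → ℝ => A *ᵥ x :=
        Continuous.matrix_mulVec continuous_const continuous_id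
      have : {x : Fin n → ℝ | (∀ i, -1 < (A *ᵥ x) i) ∧ ∑ i, (A *ᵥ x) i < 1} =
          (⋂ i, {x | -1 < (A *ᵥ x) i}) ∩ {x | ∑ i, (A *ᵥ x) i < 1} := by
        ext x; simp
      rw [this]
      refine (isOpen_iInter_of_finite fun i => ?_).inter ?_
      · exact isOpen_lt continuous_const ((continuous_apply i).comp hc)
      · exact isOpen_lt (continuous_finsetSum _ fun i _ => (continuous_apply i).comp hc)
          continuous_const
    have hsub : {x : Fin n → ℝ | (∀ i, -1 < (A *ᵥ x) i) ∧ ∑ i, (A *ᵥ x) i < 1} ⊆ K := by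
      rintro x ⟨hx1, hx2⟩
      rw [hmemK]
      intro i
      refine Fin.cases ?_ (fun i => ?_) i
      · have h3 := hcoord0 x
        have h4 : 0 ≤ (n + 1) * e.coord 0 x := by rw [h3]; linarith
        exact (mul_nonneg_iff_of_pos_left hn1).1 h4
      · have h3 := hA x i
        have h4 : 0 ≤ (n + 1) * e.coord i.succ x := by have := hx1 i; linarith
        exact (mul_nonneg_iff_of_pos_left hn1).1 h4
    have hzint : cast z ∈ interior K := by
      rw [mem_interior]
      exact ⟨_, hsub, hopen, h1, h2⟩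
    have h5 := hlat _ hzint fun i => ⟨z i, rfl⟩
    funext i
    have h6 := congrFun h5 i
    simpa [cast_app] using h6
  obtain ⟨B, hB, hAB⟩ := exists_int_matrix A hdet1 hcov
  exact ⟨B, hB, by rw [← hAB]; exact himg⟩

end

section

variable {K : Set (Fin n → ℝ)} (hn : 0 < n) (hK : IsCompact K)
  (h0 : (0 : Fin n → ℝ) ∈ interior K)
  {b : Fin n → ℝ} (hb : b = (volume.real K)⁻¹ • ∫ x in K, x)
  {A : Matrix (Fin n) (Fin n) ℤ} (hA : IsUnit A.det) {v : Fin n → ℤ}
  (himg : (fun x : Fin n → ℝ => (A.map (Int.cast : ℤ → ℝ)) *ᵥ x + cast v) '' K =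
    stdS n (n + 1))

include hA in
lemma abs_det_eq_one : |(A.map (Int.cast : ℤ → ℝ)).det| = 1 := by
  have h1 : (A.map (Int.cast : ℤ → ℝ)).det = ((A.det : ℤ) : ℝ) := by
    have := (Int.castRingHom ℝ).map_det A
    simpa using this.symm
  rw [h1]
  rcases Int.isUnit_iff.1 hA with h | h <;> rw [h] <;> simp

include hK hA himg in
theorem volume_eq : volume.real K = ((n : ℝ) + 1) ^ n / n.factorial := by
  have h1 := abs_det_eq_one hA
  have hdet : (A.map (Int.cast : ℤ → ℝ)).det ≠ 0 := by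
    intro h; rw [h] at h1; simp at h1
  have h2 := volume_real_image_aff _ hdet (cast v) hK.measurableSet
  rw [himg, h1, one_mul, volume_real_stdS n (by positivity)] at h2
  exact h2.symm

include hn hK h0 hb hA himg in
theorem centroid_eq_zero : b = 0 := by
  set M := A.map (Int.cast : ℤ → ℝ) with hM
  have habs := abs_det_eq_one hA
  have hdet : M.det ≠ 0 := by
    intro h; rw [← hM, h] at habs; simp at habs
  have hV := vol_pos hK h0
  -- the translation vector
  have hdir : ∀ d : Fin n → ℝ, ∃ ε : ℝ, 0 < ε ∧ cast v + ε • d ∈ stdS n (n + 1) := by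
    intro d
    set w := M⁻¹ *ᵥ d with hw
    have hMw : M *ᵥ w = d := by
      rw [hw, Matrix.mulVec_mulVec, Matrix.mul_nonsing_inv _ (isUnit_iff_ne_zero.2 hdet),
        Matrix.one_mulVec]
    have hcont : Continuous (fun ε : ℝ => ε • w) := by fun_prop
    have h1 : ∀ᶠ ε in 𝓝 (0 : ℝ), ε • w ∈ interior K :=
      hcont.continuousAt.eventually (by
        simp only [zero_smul]; exact isOpen_interior.mem_nhds h0)
    obtain ⟨δ, hδ, hδ'⟩ := Metric.eventually_nhds_iff.1 h1
    refine ⟨δ / 2, by positivity, ?_⟩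
    have h2 : (δ / 2) • w ∈ K := interior_subset (hδ' (by
      rw [Real.dist_eq, sub_zero, abs_of_pos (by positivity)]; linarith))
    rw [← himg]
    refine ⟨_, h2, ?_⟩
    simp only
    rw [Matrix.mulVec_smul, hMw, add_comm]
  have hvpos : ∀ i, 1 ≤ v i := by
    intro i
    obtain ⟨ε, hε, h1⟩ := hdir (-Pi.single i 1)
    have h2 := h1.1 i
    simp [cast_app] at h2
    have h3 : (0 : ℝ) < v i := by linarith
    have : 0 < v i := by exact_mod_cast h3
    omega
  have hvsum : ∑ i, v i ≤ n := by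
    obtain ⟨ε, hε, h1⟩ := hdir (Pi.single ⟨0, hn⟩ 1)
    have h2 := h1.2
    simp only [cast_app, Pi.add_apply, Pi.smul_apply, smul_eq_mul, Finset.sum_add_distrib,
      ← Finset.mul_sum, Finset.sum_pi_single', Finset.mem_univ, if_true] at h2
    have h3 : (∑ i, (v i : ℝ)) < n + 1 := by
      simp at h2
      linarith
    have h4 : ((∑ i, v i : ℤ) : ℝ) < ((n + 1 : ℤ) : ℝ) := by push_cast; exact h3
    have h5 : ∑ i, v i < (n : ℤ) + 1 := by exact_mod_cast h4
    omega
  have hv1 : ∀ i, v i = 1 := by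
    have h1 : ∑ i, (v i - 1) ≤ 0 := by
      rw [Finset.sum_sub_distrib]; simp; omega
    have h2 : ∑ i, (v i - 1) = 0 :=
      le_antisymm h1 (Finset.sum_nonneg fun i _ => by have := hvpos i; omega)
    intro i
    have h3 := (Finset.sum_eq_zero_iff_of_nonneg fun i _ => by have := hvpos i; omega).1 h2 i
      (Finset.mem_univ i)
    omega
  -- the centroid
  have hMb : M *ᵥ b = 0 := by
    funext i
    have h1 := integral_image_aff M hdet (cast v) hK.measurableSet (fun y => y i)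
    rw [himg, integral_stdS, ← himg, volume_real_image_aff M hdet (cast v) hK.measurableSet,
      habs, one_mul, one_mul] at h1
    have h2 : ∫ x in K, (M *ᵥ x + cast v) i = volume.real K * ((M *ᵥ b) i + 1) := by
      set L : (Fin n → ℝ) →ᵃ[ℝ] ℝ :=
        ((LinearMap.proj i).comp (Matrix.toLin' M)).toAffineMap + AffineMap.const ℝ _ 1 with hL
      have hLx : ∀ x, L x = (M *ᵥ x) i + 1 := by
        intro x
        simp [hL, Matrix.toLin'_apply]
      have h3 := integral_affine hK L hV hb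
      rw [hLx] at h3
      rw [← h3]
      congr 1
      funext x
      rw [hLx, Pi.add_apply]
      simp [cast_app, hv1]
    rw [h2] at h1
    have h4 : volume.real K * (M *ᵥ b) i = 0 := by linarith
    exact (mul_eq_zero.1 h4).resolve_left hV.ne'
  by_contra hne
  exact hdet (Matrix.exists_mulVec_eq_zero_iff.1 ⟨b, hne, hMb⟩)

end

/-- The full theorem. -/
theorem main (hn : 1 ≤ n) {K : Set (Fin n → ℝ)} (hK : IsCompact K) (hKc : Convex ℝ K)
    (h0 : (0 : Fin n → ℝ) ∈ interior K)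
    (hlat : ∀ x ∈ interior K, (∀ i, ∃ z : ℤ, x i = (z : ℝ)) → x = 0)
    {b : Fin n → ℝ} (hb : b = (volume.real K)⁻¹ • ∫ x in K, x)
    {R : ℝ} (hR0 : b = 0 → R = 1)
    (hR1 : ∀ t : ℝ, 0 ≤ t → b ≠ 0 → b - t • b ∈ frontier K →
        R = dist (b - t • b) 0 / dist (b - t • b) b) :
    volume.real K ≤ ((n : ℝ) + 1) ^ n / ((n.factorial : ℝ) * R ^ n) ∧
      (volume.real K = ((n : ℝ) + 1) ^ n / ((n.factorial : ℝ) * R ^ n) ↔
        ∃ A : Matrix (Fin n) (Fin n) ℤ, ∃ v : Fin n → ℤ, IsUnit A.det ∧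
          (fun x : Fin n → ℝ => fun i => ∑ j, (A i j : ℝ) * x j + (v i : ℝ)) '' K =
            {y : Fin n → ℝ | (∀ i, 0 ≤ y i) ∧ ∑ i, y i ≤ (n : ℝ) + 1}) := by
  obtain ⟨hRpos, hRle, hadm⟩ := ratio hK hKc h0 hR0 hR1
  refine ⟨volume_le hn hK hKc h0 hlat hb hRpos hadm, ?_, ?_⟩
  · intro hvol
    obtain ⟨A, hA, himg⟩ := eq_case hn hK hKc h0 hlat hb hRpos hadm hRle hvol
    refine ⟨A, fun _ => 1, hA, ?_⟩
    have e : (fun x : Fin n → ℝ => (A.map (Int.cast : ℤ → ℝ)) *ᵥ x + 1) =
        fun x : Fin n → ℝ => fun i => ∑ j, (A i j : ℝ) * x j + (((1 : ℤ)) : ℝ) := by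
      funext x i
      simp [Matrix.mulVec, dotProduct]
    rw [← e]
    exact himg
  · rintro ⟨A, v, hA, himg⟩
    have himg' : (fun x : Fin n → ℝ => (A.map (Int.cast : ℤ → ℝ)) *ᵥ x + cast v) '' K =
        stdS n (n + 1) := himg
    have hb0 := centroid_eq_zero hn hK h0 hb hA himg'
    rw [hR0 hb0, one_pow, mul_one]
    exact volume_eq hK hA himg'

end Pool.Agent.Lib.Ehrhart
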